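import Mathlib

set_option autoImplicit false

/-!
# Counting tuples of vectors in a quadratic space over a finite field
-/

namespace Pool.Agent.H370RR

open Module Finset

section iso

variable {F : Type*} [Field F] [Fintype F] {V : Type*} [AddCommGroup V] [Module F V]
  [Fintype V]

theorem card_sub (W : Submodule F V) :
    (by classical exact (univ.filter (fun v : V => v ∈ W)).card) =
      Fintype.card F ^ finrank F W := by
  classical
  rw [← Fintype.card_subtype]
  have h := Module.card_eq_pow_finrank (K := F) (V := W)
  rw [← h]


theorem card_all : Fintype.card V = Fintype.card F ^ finrank F V :=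
  Module.card_eq_pow_finrank

variable (B : LinearMap.BilinForm F V)

open Classical in
/-- Tuples of pairwise orthogonal isotropic vectors which are also orthogonal to `W`. -/
noncomputable def isoSet (W : Submodule F V) (j : ℕ) : Finset (Fin j → V) :=
  univ.filter (fun g => (∀ i, g i ∈ B.orthogonal W) ∧ ∀ i i', B (g i) (g i') = 0)

theorem c_succ (t : ℕ) : (t + 1) * (t + 1 + 3) / 2 = t * (t + 3) / 2 + (t + 2) := by
  have h : (t + 1) * (t + 1 + 3) = t * (t + 3) + 2 * (t + 2) := by ring
  rw [h, Nat.add_mul_div_left _ _ (by norm_num)]

theorem finrank_iso_le [FiniteDimensional F V] (hB : B.Nondegenerate) {m : ℕ}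
    (hm : finrank F V = 2 * m) (W : Submodule F V) (hW : ∀ x ∈ W, ∀ y ∈ W, B x y = 0) :
    finrank F W ≤ m := by
  have h1 : W ≤ B.orthogonal W := by
    intro x hx
    rw [LinearMap.BilinForm.mem_orthogonal_iff]
    intro y hy
    exact hW y hy x hx
  have h2 := Submodule.finrank_mono h1
  rw [LinearMap.BilinForm.finrank_orthogonal hB] at h2
  have h3 := Submodule.finrank_le W
  omega

theorem card_isoSet (hB : B.Nondegenerate) (hs : B.IsSymm) {m : ℕ} (hm : finrank F V = 2 * m)
    (j : ℕ) : ∀ W : Submodule F V, (∀ x ∈ W, ∀ y ∈ W, B x y = 0) →
      (isoSet B W j).card ≤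
        Fintype.card F ^ ((m - finrank F W) * (m - finrank F W + 3) / 2 + m * j) := by
  classical
  have _hfd : FiniteDimensional F V := inferInstance
  set q := Fintype.card F with hq
  have hq2 : 2 ≤ q := Fintype.one_lt_card
  induction j with
  | zero =>
    intro W _
    refine (card_le_univ _).trans ?_
    rw [Fintype.card_fun, Fintype.card_fin, pow_zero]
    exact Nat.one_le_pow _ _ (by omega)
  | succ j ih =>
    intro W hW
    have hDm := finrank_iso_le B hB hm W hW
    set D := finrank F W with hD
    have hWo : W ≤ B.orthogonal W := by
      intro x hx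
      rw [LinearMap.BilinForm.mem_orthogonal_iff]
      intro y hy
      exact hW y hy x hx
    -- split by the first vector
    have hsub : isoSet B W (j + 1) ⊆
        ((univ.filter (fun v : V => v ∈ W)).biUnion (fun v => (isoSet B W j).image (Fin.cons v))) ∪
        ((univ.filter (fun v : V => v ∈ B.orthogonal W ∧ v ∉ W ∧ B v v = 0)).biUnion
          (fun v => (isoSet B (W ⊔ Submodule.span F {v}) j).image (Fin.cons v))) := by
      intro g hg
      simp only [isoSet, mem_filter, mem_univ, true_and] at hg
      obtain ⟨hg1, hg2⟩ := hg
      rw [mem_union, mem_biUnion, mem_biUnion]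
      by_cases h0 : g 0 ∈ W
      · left
        refine ⟨g 0, by simpa using h0, ?_⟩
        rw [mem_image]
        refine ⟨Fin.tail g, ?_, Fin.cons_self_tail g⟩
        simp only [isoSet, mem_filter, mem_univ, true_and]
        exact ⟨fun i => hg1 _, fun i i' => hg2 _ _⟩
      · right
        refine ⟨g 0, by simpa using ⟨hg1 0, h0, hg2 0 0⟩, ?_⟩
        rw [mem_image]
        refine ⟨Fin.tail g, ?_, Fin.cons_self_tail g⟩
        simp only [isoSet, mem_filter, mem_univ, true_and]
        refine ⟨fun i => ?_, fun i i' => hg2 _ _⟩
        rw [LinearMap.BilinForm.mem_orthogonal_iff]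
        intro x hx
        obtain ⟨x1, hx1, x2, hx2, rfl⟩ := Submodule.mem_sup.1 hx
        obtain ⟨s, rfl⟩ := Submodule.mem_span_singleton.1 hx2
        have h1 := (LinearMap.BilinForm.mem_orthogonal_iff).1 (hg1 i.succ) x1 hx1
        have h2 := hg2 0 i.succ
        show B (x1 + s • g 0) (Fin.tail g i) = 0
        rw [map_add, LinearMap.add_apply, map_smul, LinearMap.smul_apply]
        show B x1 (g i.succ) + s • B (g 0) (g i.succ) = 0
        rw [h2, smul_zero, add_zero]
        exact h1
    have hcard1 : ((univ.filter (fun v : V => v ∈ W)).biUnion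
        (fun v => (isoSet B W j).image (Fin.cons v) : V → Finset (Fin (j + 1) → V))).card ≤
        q ^ D * q ^ ((m - D) * (m - D + 3) / 2 + m * j) := by
      refine (card_biUnion_le_card_mul _ _ _ (fun v _ => (card_image_le).trans (ih W hW))).trans ?_
      rw [← card_sub W]
    rcases hDm.lt_or_eq with hlt | heq
    · have hcard2 : ((univ.filter (fun v : V => v ∈ B.orthogonal W ∧ v ∉ W ∧ B v v = 0)).biUnion
          (fun v => (isoSet B (W ⊔ Submodule.span F {v}) j).image (Fin.cons v) :
            V → Finset (Fin (j + 1) → V))).card ≤
          q ^ (2 * m - D) * q ^ ((m - (D + 1)) * (m - (D + 1) + 3) / 2 + m * j) := by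
        refine (card_biUnion_le_card_mul _ _
          (q ^ ((m - (D + 1)) * (m - (D + 1) + 3) / 2 + m * j)) (fun v hv => ?_)).trans ?_
        · simp only [mem_filter, mem_univ, true_and] at hv
          obtain ⟨hv1, hv2, hv3⟩ := hv
          refine (card_image_le).trans ?_
          have hiso : ∀ x ∈ W ⊔ Submodule.span F {v}, ∀ y ∈ W ⊔ Submodule.span F {v},
              B x y = 0 := by
            intro x hx y hy
            obtain ⟨x1, hx1, x2, hx2, rfl⟩ := Submodule.mem_sup.1 hx
            obtain ⟨y1, hy1, y2, hy2, rfl⟩ := Submodule.mem_sup.1 hy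
            obtain ⟨s, rfl⟩ := Submodule.mem_span_singleton.1 hx2
            obtain ⟨t, rfl⟩ := Submodule.mem_span_singleton.1 hy2
            have e1 := hW x1 hx1 y1 hy1
            rw [LinearMap.BilinForm.mem_orthogonal_iff] at hv1
            have e2 : B x1 v = 0 := hv1 x1 hx1
            have e3 : B v y1 = 0 := by rw [hs.eq v y1]; exact hv1 y1 hy1
            simp [map_add, LinearMap.add_apply, e1, e2, e3, hv3]
          have hrk : finrank F (W ⊔ Submodule.span F {v} : Submodule F V) = D + 1 := by
            have hv0 : v ≠ 0 := by
              rintro rfl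
              exact hv2 W.zero_mem
            have hinf : W ⊓ Submodule.span F {v} = ⊥ := by
              rw [Submodule.eq_bot_iff]
              intro x hx
              obtain ⟨hx1, hx2⟩ := Submodule.mem_inf.1 hx
              obtain ⟨s, rfl⟩ := Submodule.mem_span_singleton.1 hx2
              by_contra hne
              have hs0 : s ≠ 0 := by
                rintro rfl
                exact hne (zero_smul _ _)
              exact hv2 ((W.smul_mem_iff hs0).1 hx1)
            have h1 := Submodule.finrank_sup_add_finrank_inf_eq W (Submodule.span F {v})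
            rw [hinf, finrank_bot, finrank_span_singleton hv0] at h1
            omega
          have h2 := ih _ hiso
          rw [hrk] at h2
          exact h2
        · refine Nat.mul_le_mul_right _ ?_
          have h1 : (univ.filter (fun v : V => v ∈ B.orthogonal W ∧ v ∉ W ∧ B v v = 0)).card ≤
              (univ.filter (fun v : V => v ∈ B.orthogonal W)).card := by
            apply card_le_card
            intro v hv
            simp only [mem_filter, mem_univ, true_and] at hv ⊢
            exact hv.1
          refine h1.trans ?_
          have h2 := card_sub (B.orthogonal W)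
          rw [LinearMap.BilinForm.finrank_orthogonal hB, hm] at h2
          rw [← hq, ← hD] at h2
          exact le_of_eq (by convert h2)
      have e1 : (m - D) * (m - D + 3) / 2 =
          (m - (D + 1)) * (m - (D + 1) + 3) / 2 + (m - D + 1) := by
        have : m - D = (m - (D + 1)) + 1 := by omega
        rw [this, c_succ]
      refine (card_le_card hsub).trans ((card_union_le _ _).trans ((Nat.add_le_add hcard1 hcard2).trans ?_))
      rw [← pow_add, ← pow_add]
      set c1 := (m - (D + 1)) * (m - (D + 1) + 3) / 2
      rw [e1]
      have e2 : D + (c1 + (m - D + 1) + m * j) = c1 + m * j + (m + 1) := by omega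
      have e3 : 2 * m - D + (c1 + m * j) ≤ c1 + m * j + (2 * m - D) := by omega
      have e4 : c1 + (m - D + 1) + m * (j + 1) = c1 + m * j + (2 * m - D) + 1 := by
        have : m * (j + 1) = m * j + m := by ring
        omega
      rw [e2, e4]
      have h1 : q ^ (c1 + m * j + (m + 1)) ≤ q ^ (c1 + m * j + (2 * m - D)) :=
        Nat.pow_le_pow_right (by omega) (by omega)
      have h2 : q ^ (2 * m - D + (c1 + m * j)) = q ^ (c1 + m * j + (2 * m - D)) := by
        congr 1; omega
      rw [h2, pow_succ]
      nlinarith [Nat.zero_le (q ^ (c1 + m * j + (2 * m - D)))]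
    · have hempty : (univ.filter (fun v : V => v ∈ B.orthogonal W ∧ v ∉ W ∧ B v v = 0)) = ∅ := by
        have hWeq : W = B.orthogonal W := by
          apply Submodule.eq_of_le_of_finrank_eq hWo
          rw [LinearMap.BilinForm.finrank_orthogonal hB, hm, ← hD]
          omega
        apply Finset.eq_empty_of_forall_notMem
        intro v hv
        simp only [mem_filter, mem_univ, true_and] at hv
        exact hv.2.1 (by rw [hWeq]; exact hv.1)
      rw [hempty, biUnion_empty, union_empty] at hsub
      refine (card_le_card hsub).trans (hcard1.trans ?_)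
      rw [← pow_add]
      apply Nat.pow_le_pow_right (by omega)
      have : m * (j + 1) = m * j + m := by ring
      omega

end iso

end Pool.Agent.H370RR
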