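import Pool.Agent.H370RR.Space

set_option autoImplicit false

/-!
# Colourings of small rank without large homogeneous sets
-/

namespace Pool.Agent.H370RR

open Module Finset

/-- The Gram matrix of `n` vectors has rank at most the dimension of the space. -/
theorem rank_gram {F V : Type*} [Field F] [AddCommGroup V] [Module F V] [FiniteDimensional F V]
    (B : LinearMap.BilinForm F V) {n : ℕ} (x : Fin n → V) :
    (Matrix.of fun i j => B (x i) (x j) : Matrix (Fin n) (Fin n) F).rank ≤ finrank F V := by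
  set M : Matrix (Fin n) (Fin n) F := Matrix.of fun i j => B (x i) (x j) with hM
  let f : (Fin n → F) →ₗ[F] V := Fintype.linearCombination F x
  let g : V →ₗ[F] (Fin n → F) := LinearMap.pi (fun i => B (x i))
  have h : M.mulVecLin = g ∘ₗ f := by
    apply LinearMap.ext
    intro w
    funext i
    simp only [Matrix.mulVecLin_apply, Matrix.mulVec, dotProduct, hM, Matrix.of_apply,
      LinearMap.comp_apply, g, f, LinearMap.pi_apply, Fintype.linearCombination_apply, map_sum,
      map_smul, smul_eq_mul]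
    refine Finset.sum_congr rfl fun j _ => ?_
    rw [mul_comm]
  unfold Matrix.rank
  rw [h, LinearMap.range_comp]
  refine (Submodule.finrank_map_le g (LinearMap.range f)).trans ?_
  exact Submodule.finrank_le _

theorem sq_bound {k : ℕ} (hk : 7 ≤ k) : 2 ^ (3 * k + 2) < k.factorial ^ 2 := by
  induction k, hk using Nat.le_induction with
  | base => decide
  | succ k hk ih =>
    rw [Nat.factorial_succ, mul_pow]
    have h1 : 2 ^ (3 * (k + 1) + 2) = 8 * 2 ^ (3 * k + 2) := by
      rw [show 3 * (k + 1) + 2 = 3 * k + 2 + 3 by ring, pow_add]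
      ring
    rw [h1]
    have h2 : 8 ≤ (k + 1) ^ 2 := by nlinarith
    nlinarith [Nat.zero_le (2 ^ (3 * k + 2))]

/-- **Lower bound over the field with two elements.** -/
theorem lower_two (m k n : ℕ) (hk : 7 ≤ k) (hmk : m ≤ k)
    (h : n ^ (2 * k) * 2 ^ (m ^ 2) ≤ 2 ^ (2 * m * k)) :
    ∃ G : SimpleGraph (Fin n), ∃ M : Matrix (Fin n) (Fin n) (ZMod 2), M.IsSymm ∧ M.rank ≤ 2 * m ∧
      (∀ x, M x x = 0) ∧ (∀ x y, G.Adj x y ↔ M x y = 1) ∧ G.CliqueFree k ∧ Gᶜ.CliqueFree k := by
  classical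
  let B := form (ZMod 2) m
  have hB : B.Nondegenerate := form_nondeg _ _
  have hs : B.IsSymm := form_symm _ _
  have hfr : finrank (ZMod 2) (Sp (ZMod 2) m) = 2 * m := finrank_sp _ _
  have hcard : Fintype.card (Sp (ZMod 2) m) = 2 ^ (2 * m) := by
    rw [card_all (F := ZMod 2), hfr, ZMod.card]
  obtain ⟨k', rfl⟩ : ∃ k', k = k' + 1 := ⟨k - 1, by omega⟩
  set k := k' + 1 with hkdef
  -- the two kinds of bad tuples
  have hN : (isoSet B ⊥ k).card ≤ 2 ^ (m * (m + 3) / 2 + m * k) := by
    have := card_isoSet B hB hs hfr k ⊥ (by simp)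
    rwa [finrank_bot, Nat.sub_zero, ZMod.card] at this
  have hQ : (oneSet B k).card * 2 ^ (k' * (k' - 1) / 2) ≤ 2 ^ (2 * m * k) := by
    have := card_oneSet B hB k'
    rwa [hfr, ZMod.card] at this
  have hfact : n.choose k * k.factorial ≤ n ^ k := by
    rw [mul_comm, ← Nat.descFactorial_eq_factorial_mul_choose]
    exact Nat.descFactorial_le_pow n k
  have hsqb := sq_bound hk
  have h1 : 2 * (n.choose k * (isoSet B ⊥ k).card) < 2 ^ (2 * m * k) := by
    have e0 : 2 * (m * (m + 3) / 2) = m * (m + 3) := by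
      apply Nat.mul_div_cancel'
      rcases Nat.even_or_odd m with he | ho
      · exact (he.mul_right _).two_dvd
      · exact (Even.mul_left (by rcases ho with ⟨t, rfl⟩; exact ⟨t + 2, by ring⟩) _).two_dvd
    have e1 : (2 * (n.choose k * (isoSet B ⊥ k).card)) ^ 2 * (2 ^ (3 * k) * 2 ^ (m ^ 2)) <
        (2 ^ (2 * m * k)) ^ 2 * (2 ^ (3 * k) * 2 ^ (m ^ 2)) := by
      rcases Nat.eq_zero_or_pos (n.choose k * (isoSet B ⊥ k).card) with h0 | hpos
      · rw [h0]
        simp only [mul_zero, ne_eq, OfNat.ofNat_ne_zero, not_false_eq_true, zero_pow, zero_mul]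
        positivity
      · calc (2 * (n.choose k * (isoSet B ⊥ k).card)) ^ 2 * (2 ^ (3 * k) * 2 ^ (m ^ 2)) =
              (n.choose k * (isoSet B ⊥ k).card) ^ 2 * 2 ^ (m ^ 2) * 2 ^ (3 * k + 2) := by
              rw [pow_add 2 (3 * k) 2]; ring
          _ < (n.choose k * (isoSet B ⊥ k).card) ^ 2 * 2 ^ (m ^ 2) * k.factorial ^ 2 :=
              Nat.mul_lt_mul_of_pos_left hsqb (by positivity)
          _ = (n.choose k * k.factorial) ^ 2 * 2 ^ (m ^ 2) * (isoSet B ⊥ k).card ^ 2 := by ring
          _ ≤ (n ^ k) ^ 2 * 2 ^ (m ^ 2) * (2 ^ (m * (m + 3) / 2 + m * k)) ^ 2 :=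
              Nat.mul_le_mul (Nat.mul_le_mul_right _ (Nat.pow_le_pow_left hfact 2))
                (Nat.pow_le_pow_left hN 2)
          _ = (n ^ (2 * k) * 2 ^ (m ^ 2)) * 2 ^ (m * (m + 3) + 2 * (m * k)) := by
              rw [← pow_mul, ← pow_mul, mul_comm k 2,
                show (m * (m + 3) / 2 + m * k) * 2 = m * (m + 3) + 2 * (m * k) by omega]
          _ ≤ 2 ^ (2 * m * k) * 2 ^ (m * (m + 3) + 2 * (m * k)) := Nat.mul_le_mul_right _ h
          _ ≤ (2 ^ (2 * m * k)) ^ 2 * (2 ^ (3 * k) * 2 ^ (m ^ 2)) := by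
              rw [← pow_add, ← pow_mul, ← pow_add, ← pow_add]
              apply Nat.pow_le_pow_right (by norm_num)
              nlinarith
    exact lt_of_pow_lt_pow_left₀ 2 (by positivity) (lt_of_mul_lt_mul_right e1 (by positivity))
  have h2 : 2 * (n.choose k * (oneSet B k).card) < 2 ^ (2 * m * k) := by
    have e0 : 2 * (k' * (k' - 1) / 2) = k' * (k' - 1) := by
      apply Nat.mul_div_cancel'
      exact (Nat.even_mul_pred_self k').two_dvd
    have e1 : (2 * (n.choose k * (oneSet B k).card)) ^ 2 *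
        (2 ^ (3 * k) * 2 ^ (m ^ 2) * (2 ^ (k' * (k' - 1) / 2)) ^ 2) <
        (2 ^ (2 * m * k)) ^ 2 * (2 ^ (3 * k) * 2 ^ (m ^ 2) * (2 ^ (k' * (k' - 1) / 2)) ^ 2) := by
      rcases Nat.eq_zero_or_pos (n.choose k * (oneSet B k).card) with h0 | hpos
      · rw [h0]
        simp only [mul_zero, ne_eq, OfNat.ofNat_ne_zero, not_false_eq_true, zero_pow, zero_mul]
        positivity
      · calc (2 * (n.choose k * (oneSet B k).card)) ^ 2 *
              (2 ^ (3 * k) * 2 ^ (m ^ 2) * (2 ^ (k' * (k' - 1) / 2)) ^ 2) =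
              (n.choose k * (oneSet B k).card) ^ 2 * 2 ^ (m ^ 2) *
                (2 ^ (k' * (k' - 1) / 2)) ^ 2 * 2 ^ (3 * k + 2) := by
              rw [pow_add 2 (3 * k) 2]; ring
          _ < (n.choose k * (oneSet B k).card) ^ 2 * 2 ^ (m ^ 2) *
                (2 ^ (k' * (k' - 1) / 2)) ^ 2 * k.factorial ^ 2 :=
              Nat.mul_lt_mul_of_pos_left hsqb (by positivity)
          _ = (n.choose k * k.factorial) ^ 2 * 2 ^ (m ^ 2) *
                ((oneSet B k).card * 2 ^ (k' * (k' - 1) / 2)) ^ 2 := by ring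
          _ ≤ (n ^ k) ^ 2 * 2 ^ (m ^ 2) * (2 ^ (2 * m * k)) ^ 2 :=
              Nat.mul_le_mul (Nat.mul_le_mul_right _ (Nat.pow_le_pow_left hfact 2))
                (Nat.pow_le_pow_left hQ 2)
          _ = (n ^ (2 * k) * 2 ^ (m ^ 2)) * (2 ^ (2 * m * k)) ^ 2 := by
              rw [← pow_mul, mul_comm k 2]
          _ ≤ 2 ^ (2 * m * k) * (2 ^ (2 * m * k)) ^ 2 := Nat.mul_le_mul_right _ h
          _ ≤ (2 ^ (2 * m * k)) ^ 2 * (2 ^ (3 * k) * 2 ^ (m ^ 2) *
                (2 ^ (k' * (k' - 1) / 2)) ^ 2) := by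
              rw [mul_comm (2 ^ (2 * m * k))]
              apply Nat.mul_le_mul_left
              rw [← pow_mul, ← pow_add, ← pow_add]
              apply Nat.pow_le_pow_right (by norm_num)
              have e2 : k' * (k' - 1) / 2 * 2 = k' * (k' - 1) := by omega
              rw [e2]
              obtain ⟨t, rfl⟩ : ∃ t, k' = t + 1 := ⟨k' - 1, by omega⟩
              rw [Nat.add_sub_cancel, hkdef]
              zify
              nlinarith [sq_nonneg ((m : ℤ) - (t + 1 + 1))]
    exact lt_of_pow_lt_pow_left₀ 2 (by positivity) (lt_of_mul_lt_mul_right e1 (by positivity))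
  have hlt : n.choose k * (isoSet B ⊥ k ∪ oneSet B k).card < Fintype.card (Sp (ZMod 2) m) ^ k := by
    have h3 : (isoSet B ⊥ k ∪ oneSet B k).card ≤ (isoSet B ⊥ k).card + (oneSet B k).card :=
      card_union_le _ _
    have h4 := Nat.mul_le_mul_left (n.choose k) h3
    rw [Nat.mul_add] at h4
    rw [hcard, ← pow_mul]
    omega
  obtain ⟨x, hx⟩ := exists_good _ hlt
  let M : Matrix (Fin n) (Fin n) (ZMod 2) := Matrix.of fun i j => B (x i) (x j)
  let G : SimpleGraph (Fin n) :=
    { Adj := fun i j => M i j = 1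
      symm := ⟨fun i j (h : B (x i) (x j) = 1) => by
        show B (x j) (x i) = 1
        rw [hs.eq (x j) (x i)]
        exact h⟩
      loopless := ⟨fun i (h : B (x i) (x i) = 1) => by
        rw [form_two] at h
        exact absurd h (by decide)⟩ }
  refine ⟨G, M, ?_, ?_, ?_, ?_, ?_, ?_⟩
  · ext i j
    exact hs.eq _ _
  · rw [← hfr]
    exact rank_gram B x
  · exact fun i => form_two m (x i)
  · exact fun i j => Iff.rfl
  · intro s hs'
    apply hx s hs'.2
    rw [mem_union]
    right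
    simp only [oneSet, mem_filter, mem_univ, true_and]
    refine ⟨fun i => form_two m _, fun i i' hii => ?_⟩
    have := hs'.1 (Finset.orderEmbOfFin_mem s hs'.2 i) (Finset.orderEmbOfFin_mem s hs'.2 i')
      (fun h => hii ((s.orderEmbOfFin hs'.2).injective h))
    exact this
  · intro s hs'
    apply hx s hs'.2
    rw [mem_union]
    left
    simp only [isoSet, mem_filter, mem_univ, true_and]
    refine ⟨fun i => ?_, fun i i' => ?_⟩
    · rw [LinearMap.BilinForm.mem_orthogonal_iff]
      intro y hy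
      rw [Submodule.mem_bot] at hy
      subst hy
      simp
    · by_cases hii : i = i'
      · subst hii
        exact form_two m _
      · have h1 := hs'.1 (Finset.orderEmbOfFin_mem s hs'.2 i) (Finset.orderEmbOfFin_mem s hs'.2 i')
          (fun h => hii ((s.orderEmbOfFin hs'.2).injective h))
        rw [SimpleGraph.compl_adj] at h1
        have h2 : ¬ B (x (s.orderEmbOfFin hs'.2 i)) (x (s.orderEmbOfFin hs'.2 i')) = 1 := h1.2
        have h3 : ∀ a : ZMod 2, a ≠ 1 → a = 0 := by decide
        exact h3 _ h2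

end Pool.Agent.H370RR
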