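import Pool.Agent.H370RR.Lower

set_option autoImplicit false

/-!
# Colourings of small rank over an arbitrary finite field
-/

namespace Pool.Agent.H370RR

open Module Finset

/-- **Lower bound over a finite field with `q` elements.** -/
theorem lower_general (F : Type) [Field F] [Fintype F] (m k n : ℕ) (hm : 1 ≤ m) (hk : 3 ≤ k)
    (h : n ^ k * Fintype.card F ^ (4 * Fintype.card F ^ 2 * m ^ 2 + 4 * k) ≤
      Fintype.card F ^ (m * k)) :
    ∃ G : SimpleGraph (Fin n), ∃ M : Matrix (Fin n) (Fin n) F, M.IsSymm ∧ M.rank ≤ 2 * m ∧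
      (∀ x, M x x = 0) ∧ (∀ x y, G.Adj x y ↔ M x y ≠ 0) ∧ G.CliqueFree k ∧ Gᶜ.CliqueFree k := by
  classical
  set q := Fintype.card F with hq
  have hq2 : 2 ≤ q := Fintype.one_lt_card
  let B := form F m
  have hB : B.Nondegenerate := form_nondeg _ _
  have hs : B.IsSymm := form_symm _ _
  have hfr : finrank F (Sp F m) = 2 * m := finrank_sp _ _
  have hcard : Fintype.card (Sp F m) = q ^ (2 * m) := by
    rw [card_all (F := F), hfr]
  let A : Finset (Sp F m) := univ.filter (fun v => B v v = 0)
  have hA : q ^ (2 * m - 1) ≤ A.card := by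
    have h1 := card_iso_ge F m
    rw [← hq] at h1
    have h2 : q * q ^ (2 * m - 1) = q ^ (2 * m) := by
      rw [← pow_succ']
      congr 1
      omega
    rw [← h2] at h1
    exact Nat.le_of_mul_le_mul_left h1 (by omega)
  have hne : Nonempty A := ⟨⟨0, by simp [A]⟩⟩
  have hN : (isoSet B ⊥ k).card ≤ q ^ (m * (m + 3) / 2 + m * k) := by
    have := card_isoSet B hB hs hfr k ⊥ (by simp)
    rwa [finrank_bot, Nat.sub_zero] at this
  have hT : (nonSet B (univ.erase 0) k).card ≤
      (q ^ (2 * m)) ^ (2 * q ^ 2 * m) * (4 * q ^ (m + 1)) ^ k := by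
    have h1 := card_nonSet B hB hs hm hfr k (univ.erase 0) (by simp)
    refine h1.trans (Nat.mul_le_mul_right _ (Nat.pow_le_pow_left ?_ _))
    apply max_le
    · rw [← hcard]
      exact card_le_univ _
    · exact Nat.one_le_pow _ _ (by omega)
  -- bad tuples
  let bad : Finset (Fin k → A) := univ.filter (fun g => (fun i => (g i : Sp F m)) ∈
    isoSet B ⊥ k ∪ nonSet B (univ.erase 0) k)
  have hbad : bad.card ≤ (isoSet B ⊥ k).card + (nonSet B (univ.erase 0) k).card := by
    refine le_trans ?_ (card_union_le _ _)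
    apply card_le_card_of_injOn (fun g i => (g i : Sp F m))
    · intro g hg
      simp only [bad, coe_filter, mem_univ, true_and, Set.mem_ofPred_eq] at hg
      exact hg
    · intro g _ g' _ hgg
      funext i
      exact Subtype.ext (congrFun hgg i)
  have hX : bad.card ≤ 2 * q ^ (4 * q ^ 2 * m ^ 2 + (m + 3) * k) := by
    have e1 : q ^ (m * (m + 3) / 2 + m * k) ≤ q ^ (4 * q ^ 2 * m ^ 2 + (m + 3) * k) := by
      apply Nat.pow_le_pow_right (by omega)
      have h1 : m * (m + 3) / 2 ≤ m * (m + 3) := Nat.div_le_self _ _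
      have h2 : m * (m + 3) ≤ 4 * m ^ 2 := by nlinarith
      have h2' : 4 * m ^ 2 ≤ 4 * q ^ 2 * m ^ 2 := by
        apply Nat.mul_le_mul_right
        have : 1 ≤ q ^ 2 := Nat.one_le_pow _ _ (by omega)
        omega
      have h3 : m * k ≤ (m + 3) * k := Nat.mul_le_mul_right _ (by omega)
      omega
    have e2 : (q ^ (2 * m)) ^ (2 * q ^ 2 * m) * (4 * q ^ (m + 1)) ^ k ≤
        q ^ (4 * q ^ 2 * m ^ 2 + (m + 3) * k) := by
      have h1 : 4 * q ^ (m + 1) ≤ q ^ (m + 3) := by
        rw [show m + 3 = m + 1 + 2 by ring, pow_add q (m + 1) 2, mul_comm]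
        exact Nat.mul_le_mul_left _ (by nlinarith)
      calc _ ≤ (q ^ (2 * m)) ^ (2 * q ^ 2 * m) * (q ^ (m + 3)) ^ k :=
            Nat.mul_le_mul_left _ (Nat.pow_le_pow_left h1 k)
        _ = _ := by
            rw [← pow_mul, ← pow_mul, ← pow_add]
            congr 1
            ring
    omega
  have hfact : n.choose k * k.factorial ≤ n ^ k := by
    rw [mul_comm, ← Nat.descFactorial_eq_factorial_mul_choose]
    exact Nat.descFactorial_le_pow n k
  have hlt : n.choose k * bad.card < Fintype.card A ^ k := by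
    rw [Fintype.card_coe]
    have hApos : 0 < A.card := lt_of_lt_of_le (by positivity) hA
    rcases Nat.eq_zero_or_pos (n.choose k) with h0 | hpos
    · rw [h0, zero_mul]
      positivity
    · have h6 : 6 ≤ k.factorial := by
        have := Nat.factorial_le hk
        simpa [Nat.factorial] using this
      have h1 : 2 * n.choose k < n ^ k := by nlinarith
      calc n.choose k * bad.card ≤ n.choose k * (2 * q ^ (4 * q ^ 2 * m ^ 2 + (m + 3) * k)) :=
            Nat.mul_le_mul_left _ hX
        _ = (2 * n.choose k) * q ^ (4 * q ^ 2 * m ^ 2 + (m + 3) * k) := by ring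
        _ < n ^ k * q ^ (4 * q ^ 2 * m ^ 2 + (m + 3) * k) :=
            Nat.mul_lt_mul_of_pos_right h1 (by positivity)
        _ ≤ (q ^ (2 * m - 1)) ^ k := by
            have h2 : n ^ k * q ^ (4 * q ^ 2 * m ^ 2 + (m + 3) * k) * q ^ k ≤
                (q ^ (2 * m - 1)) ^ k * q ^ k := by
              calc n ^ k * q ^ (4 * q ^ 2 * m ^ 2 + (m + 3) * k) * q ^ k =
                  (n ^ k * q ^ (4 * q ^ 2 * m ^ 2 + 4 * k)) * q ^ (m * k) := by
                    rw [mul_assoc (n ^ k), mul_assoc (n ^ k), ← pow_add, ← pow_add]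
                    congr 2
                    ring
                _ ≤ q ^ (m * k) * q ^ (m * k) := Nat.mul_le_mul_right _ h
                _ = (q ^ (2 * m - 1)) ^ k * q ^ k := by
                    rw [← pow_mul, ← pow_add, ← pow_add]
                    congr 1
                    obtain ⟨t, rfl⟩ : ∃ t, m = t + 1 := ⟨m - 1, by omega⟩
                    have : 2 * (t + 1) - 1 = 2 * t + 1 := by omega
                    rw [this]
                    ring
            exact Nat.le_of_mul_le_mul_right h2 (by positivity)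
        _ ≤ A.card ^ k := Nat.pow_le_pow_left hA k
  obtain ⟨x, hx⟩ := exists_good bad hlt
  have hxA : ∀ i, B (x i) (x i) = 0 := fun i => (mem_filter.1 (x i).2).2
  let M : Matrix (Fin n) (Fin n) F := Matrix.of fun i j => B (x i) (x j)
  let G : SimpleGraph (Fin n) :=
    { Adj := fun i j => M i j ≠ 0
      symm := ⟨fun i j (h : B (x i) (x j) ≠ 0) => by
        show B (x j) (x i) ≠ 0
        rw [hs.eq (x j) (x i)]
        exact h⟩
      loopless := ⟨fun i (h : B (x i) (x i) ≠ 0) => h (hxA i)⟩ }
  refine ⟨G, M, ?_, ?_, hxA, ?_, ?_, ?_⟩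
  · ext i j
    exact hs.eq _ _
  · rw [← hfr]
    exact rank_gram B (fun i => (x i : Sp F m))
  · exact fun i j => Iff.rfl
  · intro s hs'
    apply hx s hs'.2
    simp only [bad, mem_filter, mem_univ, true_and]
    rw [mem_union]
    right
    simp only [nonSet, mem_filter, mem_univ, true_and]
    have hadj : ∀ i i' : Fin k, i ≠ i' →
        B (x (s.orderEmbOfFin hs'.2 i)) (x (s.orderEmbOfFin hs'.2 i')) ≠ 0 := by
      intro i i' hii
      exact hs'.1 (Finset.orderEmbOfFin_mem s hs'.2 i) (Finset.orderEmbOfFin_mem s hs'.2 i')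
        (fun h => hii ((s.orderEmbOfFin hs'.2).injective h))
    refine ⟨fun i => ?_, fun i => hxA _, hadj⟩
    rw [mem_erase]
    refine ⟨fun h0 => ?_, mem_univ _⟩
    obtain ⟨i', hi'⟩ : ∃ i' : Fin k, i ≠ i' := by
      by_cases h1 : i = ⟨0, by omega⟩
      · exact ⟨⟨1, by omega⟩, by rw [h1]; simp⟩
      · exact ⟨⟨0, by omega⟩, h1⟩
    have := hadj i i' hi'
    rw [h0] at this
    simp at this
  · intro s hs'
    apply hx s hs'.2
    simp only [bad, mem_filter, mem_univ, true_and]
    rw [mem_union]
    left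
    simp only [isoSet, mem_filter, mem_univ, true_and]
    refine ⟨fun i => ?_, fun i i' => ?_⟩
    · rw [LinearMap.BilinForm.mem_orthogonal_iff]
      intro y hy
      rw [Submodule.mem_bot] at hy
      subst hy
      simp
    · by_cases hii : i = i'
      · subst hii
        exact hxA _
      · have h1 := hs'.1 (Finset.orderEmbOfFin_mem s hs'.2 i) (Finset.orderEmbOfFin_mem s hs'.2 i')
          (fun h => hii ((s.orderEmbOfFin hs'.2).injective h))
        rw [SimpleGraph.compl_adj] at h1
        have h2 : ¬ B (x (s.orderEmbOfFin hs'.2 i)) (x (s.orderEmbOfFin hs'.2 i')) ≠ 0 := h1.2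
        exact not_not.1 h2

end Pool.Agent.H370RR
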