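import Pool.Agent.H370RR.Count

set_option autoImplicit false

/-!
# Counting tuples of isotropic vectors with all products different from zero
-/

namespace Pool.Agent.H370RR

open Module Finset

section non

variable {F : Type*} [Field F] [Fintype F] {V : Type*} [AddCommGroup V] [Module F V]
  [Fintype V] (B : LinearMap.BilinForm F V)

open Classical in
/-- The vectors of `U` orthogonal to `x`. -/
noncomputable def perp (U : Finset V) (x : V) : Finset V := U.filter (fun u => B u x = 0)

open Classical in
theorem card_orth_one (hB : B.Nondegenerate) {N : ℕ}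
    (hN : Fintype.card V = Fintype.card F ^ 2 * N) (u : V) (hu : u ≠ 0) :
    (univ.filter (fun x : V => B u x = 0)).card = Fintype.card F * N := by
  have _hfd : FiniteDimensional F V := inferInstance
  have h1 : (univ.filter (fun x : V => B u x = 0)) =
      univ.filter (fun x : V => x ∈ B.orthogonal (Submodule.span F {u})) := by
    ext x
    simp only [mem_filter, mem_univ, true_and]
    rw [LinearMap.BilinForm.mem_orthogonal_iff]
    constructor
    · intro h y hy
      obtain ⟨s, rfl⟩ := Submodule.mem_span_singleton.1 hy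
      show B (s • u) x = 0
      rw [map_smul, LinearMap.smul_apply, h, smul_zero]
    · intro h
      exact h u (Submodule.mem_span_singleton_self u)
  have h2 : (univ.filter (fun x : V => x ∈ B.orthogonal (Submodule.span F {u}))).card =
      Fintype.card F ^ finrank F (B.orthogonal (Submodule.span F {u})) := by
    have := card_sub (B.orthogonal (Submodule.span F {u}))
    convert this
  rw [h1, h2, LinearMap.BilinForm.finrank_orthogonal hB, finrank_span_singleton hu]
  have h3 := card_all (F := F) (V := V)
  have hq : 1 < Fintype.card F := Fintype.one_lt_card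
  have h4 : 1 ≤ finrank F V := by
    by_contra hcon
    have h0 : finrank F V = 0 := by omega
    have := Module.finrank_zero_iff (R := F) (M := V) |>.1 h0
    exact hu (Subsingleton.elim _ _)
  have h5 : Fintype.card F ^ finrank F V = Fintype.card F ^ (finrank F V - 1) * Fintype.card F := by
    rw [← pow_succ]
    congr 1
    omega
  have h6 : Fintype.card F ^ (finrank F V - 1) * Fintype.card F =
      Fintype.card F * N * Fintype.card F := by
    rw [← h5, ← h3, hN]
    ring
  exact Nat.eq_of_mul_eq_mul_right (by omega) h6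

open Classical in
theorem card_orth_two (hB : B.Nondegenerate) {N : ℕ}
    (hN : Fintype.card V = Fintype.card F ^ 2 * N) (u u' : V) (hu : u ≠ 0)
    (hu' : u' ∉ Submodule.span F {u}) :
    (univ.filter (fun x : V => B u x = 0 ∧ B u' x = 0)).card = N := by
  have _hfd : FiniteDimensional F V := inferInstance
  set W := Submodule.span F {u} ⊔ Submodule.span F {u'} with hW
  have h1 : (univ.filter (fun x : V => B u x = 0 ∧ B u' x = 0)) =
      univ.filter (fun x : V => x ∈ B.orthogonal W) := by
    ext x
    simp only [mem_filter, mem_univ, true_and]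
    rw [LinearMap.BilinForm.mem_orthogonal_iff]
    constructor
    · rintro ⟨ha, hb⟩ y hy
      obtain ⟨y1, hy1, y2, hy2, rfl⟩ := Submodule.mem_sup.1 hy
      obtain ⟨s, rfl⟩ := Submodule.mem_span_singleton.1 hy1
      obtain ⟨t, rfl⟩ := Submodule.mem_span_singleton.1 hy2
      show B (s • u + t • u') x = 0
      simp [ha, hb]
    · intro h
      exact ⟨h u (Submodule.mem_sup_left (Submodule.mem_span_singleton_self u)),
        h u' (Submodule.mem_sup_right (Submodule.mem_span_singleton_self u'))⟩
  have h2 : (univ.filter (fun x : V => x ∈ B.orthogonal W)).card =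
      Fintype.card F ^ finrank F (B.orthogonal W) := by
    have := card_sub (B.orthogonal W)
    convert this
  have hu'0 : u' ≠ 0 := by
    rintro rfl
    exact hu' (Submodule.zero_mem _)
  have hrk : finrank F W = 2 := by
    have hinf : Submodule.span F {u} ⊓ Submodule.span F {u'} = ⊥ := by
      rw [Submodule.eq_bot_iff]
      intro x hx
      obtain ⟨hx1, hx2⟩ := Submodule.mem_inf.1 hx
      obtain ⟨s, rfl⟩ := Submodule.mem_span_singleton.1 hx2
      by_contra hne
      have hs0 : s ≠ 0 := by
        rintro rfl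
        exact hne (zero_smul _ _)
      exact hu' (((Submodule.span F {u}).smul_mem_iff hs0).1 hx1)
    have h1 := Submodule.finrank_sup_add_finrank_inf_eq (Submodule.span F {u}) (Submodule.span F {u'})
    rw [hinf, finrank_bot, finrank_span_singleton hu, finrank_span_singleton hu'0] at h1
    omega
  rw [h1, h2, LinearMap.BilinForm.finrank_orthogonal hB, hrk]
  have h3 := card_all (F := F) (V := V)
  have hq : 1 < Fintype.card F := Fintype.one_lt_card
  have h4 : 2 ≤ finrank F V := by
    rw [← hrk]
    exact Submodule.finrank_le W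
  have h5 : Fintype.card F ^ finrank F V =
      Fintype.card F ^ (finrank F V - 2) * Fintype.card F ^ 2 := by
    rw [← pow_add]
    congr 1
    omega
  have h6 : Fintype.card F ^ (finrank F V - 2) * Fintype.card F ^ 2 =
      N * Fintype.card F ^ 2 := by
    rw [← h5, ← h3, hN]
    ring
  exact Nat.eq_of_mul_eq_mul_right (by positivity) h6

open Classical in
/-- First moment. -/
theorem sum_perp (hB : B.Nondegenerate) {N : ℕ} (hN : Fintype.card V = Fintype.card F ^ 2 * N)
    (U : Finset V) (hU : (0 : V) ∉ U) :
    ∑ x : V, (perp B U x).card = U.card * (Fintype.card F * N) := by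
  have h1 : ∑ x : V, (perp B U x).card =
      ∑ u ∈ U, (univ.filter (fun x : V => B u x = 0)).card := by
    simp only [perp, card_filter]
    rw [Finset.sum_comm]
  rw [h1, Finset.sum_congr rfl (fun u hu => card_orth_one B hB hN u (fun h => hU (h ▸ hu))),
    sum_const, smul_eq_mul]

open Classical in
/-- Second moment. -/
theorem sum_perp_sq (hB : B.Nondegenerate) {N : ℕ} (hN : Fintype.card V = Fintype.card F ^ 2 * N)
    (U : Finset V) (hU : (0 : V) ∉ U) :
    ∑ x : V, (perp B U x).card ^ 2 ≤
      U.card * (U.card * N + Fintype.card F * (Fintype.card F * N)) := by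
  have h1 : ∑ x : V, (perp B U x).card ^ 2 =
      ∑ u ∈ U, ∑ u' ∈ U, (univ.filter (fun x : V => B u x = 0 ∧ B u' x = 0)).card := by
    have h2 : ∀ x : V, (perp B U x).card ^ 2 =
        ∑ u ∈ U, ∑ u' ∈ U, if B u x = 0 ∧ B u' x = 0 then 1 else 0 := by
      intro x
      simp only [perp, card_filter]
      rw [sq, Finset.sum_mul_sum]
      refine Finset.sum_congr rfl fun u _ => Finset.sum_congr rfl fun u' _ => ?_
      by_cases ha : B u x = 0 <;> by_cases hb : B u' x = 0 <;> simp [ha, hb]
    rw [Finset.sum_congr rfl fun x _ => h2 x, Finset.sum_comm]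
    refine Finset.sum_congr rfl fun u _ => ?_
    rw [Finset.sum_comm]
    refine Finset.sum_congr rfl fun u' _ => ?_
    rw [card_filter]
  rw [h1]
  have h3 : ∀ u ∈ U, ∑ u' ∈ U, (univ.filter (fun x : V => B u x = 0 ∧ B u' x = 0)).card ≤
      U.card * N + Fintype.card F * (Fintype.card F * N) := by
    intro u hu
    have hu0 : u ≠ 0 := fun h => hU (h ▸ hu)
    rw [← Finset.sum_filter_add_sum_filter_not U (fun u' => u' ∉ Submodule.span F {u})]
    refine Nat.add_le_add ?_ ?_
    · refine (Finset.sum_le_card_nsmul _ _ N ?_).trans ?_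
      · intro u' hu'
        rw [mem_filter] at hu'
        exact (card_orth_two B hB hN u u' hu0 hu'.2).le
      · rw [smul_eq_mul]
        exact Nat.mul_le_mul_right _ (card_le_card (filter_subset _ _))
    · refine (Finset.sum_le_card_nsmul _ _ (Fintype.card F * N) ?_).trans ?_
      · intro u' _
        rw [← card_orth_one B hB hN u hu0]
        apply card_le_card
        intro x hx
        simp only [mem_filter, mem_univ, true_and] at hx ⊢
        exact hx.1
      · rw [smul_eq_mul]
        refine Nat.mul_le_mul_right _ ?_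
        have h4 : (univ.filter (fun v : V => v ∈ Submodule.span F {u})).card =
            Fintype.card F ^ finrank F (Submodule.span F {u}) := by
          have := card_sub (Submodule.span F {u})
          convert this
        rw [finrank_span_singleton hu0, pow_one] at h4
        rw [← h4]
        apply card_le_card
        intro x hx
        simp only [mem_filter, mem_univ, true_and, not_not] at hx ⊢
        exact hx.2
  refine (Finset.sum_le_card_nsmul _ _ _ h3).trans ?_
  rw [smul_eq_mul]

open Classical in
/-- The vectors orthogonal to few elements of `U`. -/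
noncomputable def bad (U : Finset V) : Finset V :=
  univ.filter (fun x => 2 * Fintype.card F * (perp B U x).card < U.card)

open Classical in
theorem card_bad (hB : B.Nondegenerate) {N : ℕ} (hN : Fintype.card V = Fintype.card F ^ 2 * N)
    (U : Finset V) (hU : (0 : V) ∉ U) :
    (bad B U).card * U.card ≤ 4 * Fintype.card F ^ 4 * N := by
  rcases Nat.eq_zero_or_pos U.card with h0 | hpos
  · rw [h0]; simp
  set q := Fintype.card F with hq
  have h1 := sum_perp B hB hN U hU
  have h2 := sum_perp_sq B hB hN U hU
  rw [← hq] at h1 h2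
  have h3 : ∑ x : V, ((q : ℤ) * (perp B U x).card - U.card) ^ 2 ≤ (q : ℤ) ^ 4 * N * U.card := by
    have e1 : ∀ x : V, ((q : ℤ) * (perp B U x).card - U.card) ^ 2 =
        (q : ℤ) ^ 2 * ((perp B U x).card : ℤ) ^ 2 -
          2 * q * U.card * ((perp B U x).card : ℤ) + (U.card : ℤ) ^ 2 := by
      intro x
      ring
    rw [Finset.sum_congr rfl fun x _ => e1 x, Finset.sum_add_distrib, Finset.sum_sub_distrib,
      ← Finset.mul_sum, ← Finset.mul_sum, Finset.sum_const, card_univ, hN, nsmul_eq_mul]
    have h1' : ∑ x : V, ((perp B U x).card : ℤ) = U.card * (q * N) := by exact_mod_cast h1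
    have h2' : ∑ x : V, ((perp B U x).card : ℤ) ^ 2 ≤ U.card * (U.card * N + q * (q * N)) := by
      exact_mod_cast h2
    rw [h1']
    have hq2 : (0 : ℤ) ≤ (q : ℤ) ^ 2 := by positivity
    have := mul_le_mul_of_nonneg_left h2' hq2
    push_cast
    nlinarith [this]
  have h4 : ((bad B U).card : ℤ) * (U.card : ℤ) ^ 2 ≤
      4 * ∑ x : V, ((q : ℤ) * (perp B U x).card - U.card) ^ 2 := by
    have e1 : ∀ x ∈ bad B U, (U.card : ℤ) ^ 2 ≤
        4 * ((q : ℤ) * (perp B U x).card - U.card) ^ 2 := by
      intro x hx
      simp only [bad, mem_filter, mem_univ, true_and] at hx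
      have hx' : 2 * (q : ℤ) * (perp B U x).card < U.card := by exact_mod_cast hx
      have hnn : (0 : ℤ) ≤ (q : ℤ) * (perp B U x).card := by positivity
      nlinarith
    calc ((bad B U).card : ℤ) * (U.card : ℤ) ^ 2 = ∑ x ∈ bad B U, (U.card : ℤ) ^ 2 := by
          rw [Finset.sum_const, nsmul_eq_mul]
      _ ≤ ∑ x ∈ bad B U, 4 * ((q : ℤ) * (perp B U x).card - U.card) ^ 2 :=
          Finset.sum_le_sum e1
      _ ≤ ∑ x : V, 4 * ((q : ℤ) * (perp B U x).card - U.card) ^ 2 := by
          apply Finset.sum_le_sum_of_subset_of_nonneg (subset_univ _)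
          intro x _ _
          positivity
      _ = _ := by rw [Finset.mul_sum]
  have h5 : ((bad B U).card : ℤ) * U.card ≤ 4 * (q : ℤ) ^ 4 * N := by
    have hp : (0 : ℤ) < U.card := by exact_mod_cast hpos
    have : ((bad B U).card : ℤ) * U.card * U.card ≤ 4 * (q : ℤ) ^ 4 * N * U.card := by
      nlinarith
    exact le_of_mul_le_mul_right this hp
  exact_mod_cast h5

open Classical in
/-- Tuples of isotropic vectors of `U` with all products nonzero. -/
noncomputable def nonSet (U : Finset V) (j : ℕ) : Finset (Fin j → V) :=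
  univ.filter (fun g => (∀ i, g i ∈ U) ∧ (∀ i, B (g i) (g i) = 0) ∧
    ∀ i i', i ≠ i' → B (g i) (g i') ≠ 0)

theorem key_pow (q m : ℕ) (hq : 2 ≤ q) :
    q ^ m * (2 * q - 1) ^ (2 * q ^ 2 * m) ≤ (2 * q) ^ (2 * q ^ 2 * m) := by
  have h1 : 2 * (2 * q - 1) ^ (2 * q) ≤ (2 * q) ^ (2 * q) := by
    have hb : (1 : ℝ) + (2 * q : ℕ) * (1 / (2 * q - 1)) ≤ (1 + 1 / (2 * q - 1)) ^ (2 * q) :=
      one_add_mul_le_pow (by
        have : (0 : ℝ) ≤ 1 / (2 * q - 1) := by
          have : (2 : ℝ) ≤ q := by exact_mod_cast hq
          apply div_nonneg <;> linarith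
        linarith) _
    have hq' : (2 : ℝ) ≤ q := by exact_mod_cast hq
    have hd : (0 : ℝ) < 2 * q - 1 := by linarith
    have h2 : (2 : ℝ) ≤ 1 + (2 * q : ℕ) * (1 / (2 * q - 1)) := by
      push_cast
      have : (1 : ℝ) ≤ (2 * q) * (1 / (2 * q - 1)) := by
        rw [mul_one_div, le_div_iff₀ hd]
        linarith
      linarith
    have h3 : (1 + 1 / (2 * (q : ℝ) - 1)) = (2 * q) / (2 * q - 1) := by
      field_simp
      ring
    rw [h3, div_pow] at hb
    have h4 := h2.trans hb
    rw [le_div_iff₀ (by positivity)] at h4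
    have h5 : ((2 * (2 * q - 1) ^ (2 * q) : ℕ) : ℝ) ≤ ((2 * q) ^ (2 * q) : ℕ) := by
      push_cast [Nat.cast_sub (show 1 ≤ 2 * q by omega)]
      exact h4
    exact_mod_cast h5
  have h2 : q ^ m ≤ (2 ^ (q * m)) := by
    rw [pow_mul]
    exact Nat.pow_le_pow_left (Nat.lt_two_pow_self).le m
  have h3 : 2 * q ^ 2 * m = (2 * q) * (q * m) := by ring
  have h4 : ∀ a : ℕ, a ^ (2 * q * (q * m)) = (a ^ (2 * q)) ^ (q * m) := fun a => pow_mul a _ _
  rw [h3, h4, h4]
  calc q ^ m * ((2 * q - 1) ^ (2 * q)) ^ (q * m) ≤
      2 ^ (q * m) * ((2 * q - 1) ^ (2 * q)) ^ (q * m) := Nat.mul_le_mul_right _ h2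
    _ = (2 * (2 * q - 1) ^ (2 * q)) ^ (q * m) := by rw [mul_pow]
    _ ≤ _ := Nat.pow_le_pow_left h1 _

theorem good_step (q m u u' : ℕ) (hq : 2 ≤ q) (hs : 1 ≤ 2 * q ^ 2 * m) (hu : 1 ≤ u)
    (hu2 : u ≤ q ^ (2 * m)) (h : 2 * q * u' ≤ (2 * q - 1) * u) :
    u * (max u' 1) ^ (2 * q ^ 2 * m) ≤ 2 * q ^ (m + 1) * u ^ (2 * q ^ 2 * m) := by
  set s := 2 * q ^ 2 * m with hsd
  have hqm : 1 ≤ q ^ m := Nat.one_le_pow _ _ (by omega)
  have hqm' : q ^ m ≤ 2 * q ^ (m + 1) := by
    rw [pow_succ]
    nlinarith
  rcases Nat.eq_zero_or_pos u' with h0 | hpos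
  · subst h0
    rw [max_eq_right (by norm_num), one_pow, mul_one]
    have h1 : u ≤ u ^ s := Nat.le_self_pow (by omega) u
    have h2 : 1 ≤ 2 * q ^ (m + 1) := hqm.trans hqm'
    nlinarith
  · rw [max_eq_left hpos]
    have h1 : (2 * q) ^ s * (u * u' ^ s) ≤ (2 * q) ^ s * (q ^ m * u ^ s) := by
      calc (2 * q) ^ s * (u * u' ^ s) = u * (2 * q * u') ^ s := by rw [mul_pow]; ring
        _ ≤ u * ((2 * q - 1) * u) ^ s := Nat.mul_le_mul_left _ (Nat.pow_le_pow_left h s)
        _ = u * ((2 * q - 1) ^ s * u ^ s) := by rw [mul_pow]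
        _ ≤ q ^ (2 * m) * ((2 * q - 1) ^ s * u ^ s) := Nat.mul_le_mul_right _ hu2
        _ = q ^ m * (q ^ m * (2 * q - 1) ^ s) * u ^ s := by
          rw [two_mul, pow_add]; ring
        _ ≤ q ^ m * ((2 * q) ^ s) * u ^ s :=
          Nat.mul_le_mul_right _ (Nat.mul_le_mul_left _ (key_pow q m hq))
        _ = _ := by ring
    have h2 : u * u' ^ s ≤ q ^ m * u ^ s := Nat.le_of_mul_le_mul_left h1 (by positivity)
    exact h2.trans (Nat.mul_le_mul_right _ hqm')

open Classical in
theorem card_nonSet (hB : B.Nondegenerate) (hsym : B.IsSymm) {m : ℕ} (hm1 : 1 ≤ m) (hm : finrank F V = 2 * m)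
    (j : ℕ) : ∀ U : Finset V, (0 : V) ∉ U → (nonSet B U j).card ≤
      (max U.card 1) ^ (2 * Fintype.card F ^ 2 * m) * (4 * Fintype.card F ^ (m + 1)) ^ j := by
  set q := Fintype.card F with hq
  have hq2 : 2 ≤ q := Fintype.one_lt_card
  have hVcard : Fintype.card V = q ^ (2 * m) := by
    rw [card_all (F := F), hm]
  have hN : Fintype.card V = Fintype.card F ^ 2 * q ^ (2 * m - 2) := by
    rw [hVcard, ← hq, ← pow_add]
    congr 1
    omega
  have hs1 : 1 ≤ 2 * q ^ 2 * m := by
    have : 0 < 2 * q ^ 2 * m := by positivity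
    omega
  set s := 2 * q ^ 2 * m with hs
  induction j with
  | zero =>
    intro U _
    refine (card_le_univ _).trans ?_
    rw [Fintype.card_fun, Fintype.card_fin, pow_zero, pow_zero, mul_one]
    exact Nat.one_le_pow _ _ (by omega)
  | succ j ih =>
    intro U hU
    rcases Nat.eq_zero_or_pos U.card with h0 | hpos
    · have : nonSet B U (j + 1) = ∅ := by
        apply Finset.eq_empty_of_forall_notMem
        intro g hg
        simp only [nonSet, mem_filter, mem_univ, true_and] at hg
        have := hg.1 0
        rw [card_eq_zero] at h0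
        rw [h0] at this
        simp at this
      rw [this, card_empty]
      exact Nat.zero_le _
    have hmax : max U.card 1 = U.card := max_eq_left hpos
    rw [hmax]
    let U' : V → Finset V := fun x => U.filter (fun u => B x u ≠ 0)
    have hU'0 : ∀ x, (0 : V) ∉ U' x := fun x h => hU (mem_filter.1 h).1
    have hsub : nonSet B U (j + 1) ⊆
        (U.filter (fun x => B x x = 0)).biUnion (fun x => (nonSet B (U' x) j).image
          (fun g => (Fin.cons x g : Fin (j + 1) → V))) := by
      intro g hg
      simp only [nonSet, mem_filter, mem_univ, true_and] at hg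
      obtain ⟨hg1, hg2, hg3⟩ := hg
      rw [mem_biUnion]
      refine ⟨g 0, by simp [hg1 0, hg2 0], ?_⟩
      rw [mem_image]
      refine ⟨Fin.tail g, ?_, Fin.cons_self_tail g⟩
      simp only [nonSet, mem_filter, mem_univ, true_and]
      refine ⟨fun i => ?_, fun i => hg2 _, fun i i' h => hg3 _ _ (fun h' => h (Fin.succ_injective _ h'))⟩
      exact mem_filter.2 ⟨hg1 _, hg3 0 i.succ (Fin.succ_ne_zero i).symm⟩
    have hsum : (nonSet B U (j + 1)).card ≤
        ∑ x ∈ U.filter (fun x => B x x = 0), (nonSet B (U' x) j).card := by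
      refine ((card_le_card hsub).trans card_biUnion_le).trans ?_
      exact Finset.sum_le_sum fun x _ => card_image_le
    set K := (4 * q ^ (m + 1)) ^ j with hK
    have hU'c : ∀ x, (U' x).card + (perp B U x).card = U.card := by
      intro x
      have h1 : perp B U x = U.filter (fun u => ¬ (B x u ≠ 0)) := by
        ext u
        simp only [perp, mem_filter, not_not]
        rw [hsym.eq u x]
      rw [h1]
      exact Finset.card_filter_add_card_filter_not _
    have hUc : U.card ≤ q ^ (2 * m) := by
      rw [← hVcard]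
      exact card_le_univ U
    -- bad vectors
    have hbadc : ((U.filter (fun x => B x x = 0)).filter (fun x => x ∈ bad B U)).card ≤
        2 * q ^ (m + 1) := by
      set b := ((U.filter (fun x => B x x = 0)).filter (fun x => x ∈ bad B U)).card with hb
      have h1 : b ≤ (bad B U).card := by
        apply card_le_card
        intro x hx
        exact (mem_filter.1 hx).2
      have h2 : b ≤ U.card := by
        apply card_le_card
        intro x hx
        exact (mem_filter.1 (mem_filter.1 hx).1).1
      have h3 := card_bad B hB hN U hU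
      have h4 : b * b ≤ (2 * q ^ (m + 1)) * (2 * q ^ (m + 1)) := by
        calc b * b ≤ (bad B U).card * U.card := Nat.mul_le_mul h1 h2
          _ ≤ 4 * Fintype.card F ^ 4 * q ^ (2 * m - 2) := h3
          _ = 4 * (q ^ 4 * q ^ (2 * m - 2)) := by rw [← hq]; ring
          _ = 4 * q ^ (2 * (m + 1)) := by
            rw [← pow_add]
            congr 2
            omega
          _ = _ := by rw [two_mul, pow_add]; ring
      exact Nat.mul_self_le_mul_self_iff.1 h4
    have hsplit : ∑ x ∈ U.filter (fun x => B x x = 0), (nonSet B (U' x) j).card =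
        ∑ x ∈ (U.filter (fun x => B x x = 0)).filter (fun x => x ∈ bad B U),
          (nonSet B (U' x) j).card +
        ∑ x ∈ (U.filter (fun x => B x x = 0)).filter (fun x => ¬ x ∈ bad B U),
          (nonSet B (U' x) j).card := (Finset.sum_filter_add_sum_filter_not _ _ _).symm
    have hb1 : ∑ x ∈ (U.filter (fun x => B x x = 0)).filter (fun x => x ∈ bad B U),
          (nonSet B (U' x) j).card ≤ 2 * q ^ (m + 1) * (U.card ^ s * K) := by
      refine (Finset.sum_le_card_nsmul _ _ (U.card ^ s * K) ?_).trans ?_
      · intro x _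
        refine (ih _ (hU'0 x)).trans ?_
        refine Nat.mul_le_mul_right _ (Nat.pow_le_pow_left ?_ s)
        have := hU'c x
        exact max_le (by omega) hpos
      · rw [smul_eq_mul]
        exact Nat.mul_le_mul_right _ hbadc
    have hb2 : ∑ x ∈ (U.filter (fun x => B x x = 0)).filter (fun x => ¬ x ∈ bad B U),
          (nonSet B (U' x) j).card ≤ 2 * q ^ (m + 1) * (U.card ^ s * K) := by
      have h1 : ∀ x ∈ (U.filter (fun x => B x x = 0)).filter (fun x => ¬ x ∈ bad B U),
          U.card * (nonSet B (U' x) j).card ≤ 2 * q ^ (m + 1) * (U.card ^ s * K) := by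
        intro x hx
        have hx2 := (mem_filter.1 hx).2
        simp only [bad, mem_filter, mem_univ, true_and, not_lt] at hx2
        have hc := hU'c x
        have h2 : 2 * q * (U' x).card ≤ (2 * q - 1) * U.card := by
          rw [← hq] at hx2
          have : (2 * q - 1) * U.card = 2 * q * U.card - U.card := by
            rw [Nat.sub_mul, one_mul]
          rw [this, ← hc]
          have h3 : 2 * q * ((U' x).card + (perp B U x).card) =
              2 * q * (U' x).card + 2 * q * (perp B U x).card := by ring
          omega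
        have h3 := good_step q m U.card (U' x).card hq2 hs1 hpos hUc h2
        calc U.card * (nonSet B (U' x) j).card ≤ U.card * ((max (U' x).card 1) ^ s * K) :=
              Nat.mul_le_mul_left _ (ih _ (hU'0 x))
          _ = (U.card * (max (U' x).card 1) ^ s) * K := by ring
          _ ≤ (2 * q ^ (m + 1) * U.card ^ s) * K := Nat.mul_le_mul_right _ h3
          _ = _ := by ring
      have h2 : U.card * ∑ x ∈ (U.filter (fun x => B x x = 0)).filter (fun x => ¬ x ∈ bad B U),
          (nonSet B (U' x) j).card ≤ U.card * (2 * q ^ (m + 1) * (U.card ^ s * K)) := by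
        rw [Finset.mul_sum]
        refine (Finset.sum_le_card_nsmul _ _ _ h1).trans ?_
        rw [smul_eq_mul]
        refine Nat.mul_le_mul_right _ (card_le_card ?_)
        exact (filter_subset _ _).trans (filter_subset _ _)
      exact Nat.le_of_mul_le_mul_left h2 hpos
    refine hsum.trans ?_
    rw [hsplit, pow_succ]
    calc _ ≤ 2 * q ^ (m + 1) * (U.card ^ s * K) + 2 * q ^ (m + 1) * (U.card ^ s * K) :=
          Nat.add_le_add hb1 hb2
      _ = U.card ^ s * (K * (4 * q ^ (m + 1))) := by ring

end non

end Pool.Agent.H370RR
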