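import Pool.Agent.H370RR.Count

set_option autoImplicit false

/-!
# Counting tuples of vectors with all products equal to one
-/

namespace Pool.Agent.H370RR

open Module Finset

section ones

variable {F : Type*} [Field F] [Fintype F] {V : Type*} [AddCommGroup V] [Module F V]
  [Fintype V] (B : LinearMap.BilinForm F V)

open Classical in
/-- Tuples of isotropic vectors with all products equal to one. -/
noncomputable def oneSet (j : ℕ) : Finset (Fin j → V) :=
  univ.filter (fun g => (∀ i, B (g i) (g i) = 0) ∧ ∀ i i', i ≠ i' → B (g i) (g i') = 1)

theorem oneSet_indep {j : ℕ} {g : Fin (j + 1) → V} (hg : g ∈ oneSet B (j + 1)) :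
    LinearIndependent F (fun i : Fin j => g i.castSucc) := by
  classical
  simp only [oneSet, mem_filter, mem_univ, true_and] at hg
  obtain ⟨hg0, hg1⟩ := hg
  rw [Fintype.linearIndependent_iff]
  intro a ha i
  have h1 : ∑ l : Fin j, a l = 0 := by
    have h := congrArg (fun w => B w (g (Fin.last j))) ha
    simp only [map_sum, LinearMap.sum_apply, map_smul, LinearMap.smul_apply, smul_eq_mul,
      map_zero, LinearMap.zero_apply] at h
    rw [← h]
    refine Finset.sum_congr rfl fun l _ => ?_
    rw [hg1 _ _ (Fin.castSucc_lt_last l).ne, mul_one]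
  have h2 : ∑ l ∈ univ.erase i, a l = 0 := by
    have h := congrArg (fun w => B w (g i.castSucc)) ha
    simp only [map_sum, LinearMap.sum_apply, map_smul, LinearMap.smul_apply, smul_eq_mul,
      map_zero, LinearMap.zero_apply] at h
    rw [← Finset.add_sum_erase _ _ (mem_univ i), hg0, mul_zero, zero_add] at h
    rw [← h]
    refine Finset.sum_congr rfl fun l hl => ?_
    rw [hg1 _ _ (fun h => (ne_of_mem_erase hl) (Fin.castSucc_injective j h)), mul_one]
  rw [← Finset.add_sum_erase _ _ (mem_univ i), h2, add_zero] at h1
  exact h1

open Classical in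
theorem card_coset (hB : B.Nondegenerate) {j : ℕ} (g : Fin j → V) (hg : LinearIndependent F g) :
    (univ.filter (fun v : V => ∀ i, B (g i) v = 1)).card * Fintype.card F ^ j ≤
      Fintype.card F ^ finrank F V := by
  have _hfd : FiniteDimensional F V := inferInstance
  rcases (univ.filter (fun v : V => ∀ i, B (g i) v = 1)).eq_empty_or_nonempty with h | ⟨v0, hv0⟩
  · rw [h, card_empty, zero_mul]
    exact Nat.zero_le _
  · simp only [mem_filter, mem_univ, true_and] at hv0
    set W := Submodule.span F (Set.range g) with hW
    have hrk : finrank F W = j := by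
      rw [hW, finrank_span_eq_card hg, Fintype.card_fin]
    have h1 : (univ.filter (fun v : V => ∀ i, B (g i) v = 1)).card ≤
        (univ.filter (fun v : V => v ∈ B.orthogonal W)).card := by
      apply card_le_card_of_injOn (fun v => v - v0)
      · intro v hv
        simp only [coe_filter, mem_univ, true_and, Set.mem_ofPred_eq] at hv ⊢
        rw [LinearMap.BilinForm.mem_orthogonal_iff]
        intro x hx
        show B x (v - v0) = 0
        have : W ≤ LinearMap.ker (B.flip (v - v0)) := by
          rw [hW, Submodule.span_le]
          rintro _ ⟨i, rfl⟩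
          simp [LinearMap.mem_ker, hv i, hv0 i]
        have h2 := this hx
        simpa [LinearMap.mem_ker, LinearMap.flip_apply] using h2
      · intro a _ b _ hab
        simpa using hab
    have h2 : (univ.filter (fun v : V => v ∈ B.orthogonal W)).card =
        Fintype.card F ^ finrank F (B.orthogonal W) := by
      have := card_sub (B.orthogonal W)
      convert this
    rw [LinearMap.BilinForm.finrank_orthogonal hB, hrk] at h2
    have h3 : j ≤ finrank F V := by
      rw [← hrk]
      exact Submodule.finrank_le W
    calc _ ≤ Fintype.card F ^ (finrank F V - j) * Fintype.card F ^ j := by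
          rw [← h2]
          exact Nat.mul_le_mul_right _ h1
      _ = _ := by
        rw [← pow_add]
        congr 1
        omega

theorem card_oneSet (hB : B.Nondegenerate) (j : ℕ) :
    (oneSet B (j + 1)).card * Fintype.card F ^ (j * (j - 1) / 2) ≤
      Fintype.card F ^ (finrank F V * (j + 1)) := by
  classical
  have hq : 0 < Fintype.card F := Fintype.card_pos
  induction j with
  | zero =>
    rw [Nat.zero_mul, Nat.zero_div, pow_zero, mul_one, Nat.zero_add, mul_one]
    refine (card_le_univ _).trans ?_
    rw [Fintype.card_fun, Fintype.card_fin, pow_one, card_all (F := F)]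
  | succ j ih =>
    have hsub : oneSet B (j + 1 + 1) ⊆ (oneSet B (j + 1)).biUnion (fun g =>
        (univ.filter (fun v : V => ∀ i : Fin j, B (g i.castSucc) v = 1)).image
          (fun v => (Fin.snoc g v : Fin (j + 1 + 1) → V))) := by
      intro g hg
      simp only [oneSet, mem_filter, mem_univ, true_and] at hg
      obtain ⟨hg0, hg1⟩ := hg
      rw [mem_biUnion]
      refine ⟨Fin.init g, ?_, ?_⟩
      · simp only [oneSet, mem_filter, mem_univ, true_and]
        exact ⟨fun i => hg0 _, fun i i' h => hg1 _ _ (fun h' => h (Fin.castSucc_injective _ h'))⟩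
      · rw [mem_image]
        refine ⟨g (Fin.last _), ?_, Fin.snoc_init_self g⟩
        simp only [mem_filter, mem_univ, true_and]
        intro i
        exact hg1 _ _ (Fin.castSucc_lt_last _).ne
    have hcard : (oneSet B (j + 1 + 1)).card * Fintype.card F ^ j ≤
        (oneSet B (j + 1)).card * Fintype.card F ^ finrank F V := by
      refine (Nat.mul_le_mul_right _ ((card_le_card hsub).trans card_biUnion_le)).trans ?_
      rw [Finset.sum_mul]
      refine (Finset.sum_le_card_nsmul _ _ (Fintype.card F ^ finrank F V) ?_).trans ?_
      · intro g hg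
        refine (Nat.mul_le_mul_right _ card_image_le).trans ?_
        exact card_coset B hB _ (oneSet_indep B hg)
      · rw [smul_eq_mul]
    have he : (j + 1) * (j + 1 - 1) / 2 = j + j * (j - 1) / 2 := by
      rcases j with _ | j
      · rfl
      · have : (j + 1 + 1) * (j + 1 + 1 - 1) = (j + 1) * (j + 1 - 1) + 2 * (j + 1) := by
          simp only [Nat.add_sub_cancel]
          ring
        rw [this, Nat.add_mul_div_left _ _ (by norm_num)]
        ring
    rw [he, pow_add]
    calc (oneSet B (j + 1 + 1)).card * (Fintype.card F ^ j * Fintype.card F ^ (j * (j - 1) / 2))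
        = (oneSet B (j + 1 + 1)).card * Fintype.card F ^ j *
            Fintype.card F ^ (j * (j - 1) / 2) := by ring
      _ ≤ (oneSet B (j + 1)).card * Fintype.card F ^ finrank F V *
            Fintype.card F ^ (j * (j - 1) / 2) := Nat.mul_le_mul_right _ hcard
      _ = ((oneSet B (j + 1)).card * Fintype.card F ^ (j * (j - 1) / 2)) *
            Fintype.card F ^ finrank F V := by ring
      _ ≤ Fintype.card F ^ (finrank F V * (j + 1)) * Fintype.card F ^ finrank F V :=
            Nat.mul_le_mul_right _ ih
      _ = Fintype.card F ^ (finrank F V * (j + 1 + 1)) := by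
        rw [← pow_add]
        congr 1

end ones

end Pool.Agent.H370RR
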