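import Pool.Agent.H370RR.Ones
import Pool.Agent.H370RR.NonOrth

set_option autoImplicit false

/-!
# The hyperbolic space, and the union bound
-/

namespace Pool.Agent.H370RR

open Module Finset

section space

variable (F : Type) [Field F] (m : ℕ)

/-- The space `F ^ m × F ^ m`. -/
abbrev Sp : Type := (Fin m → F) × (Fin m → F)

/-- The form `(a, b) (c, d) ↦ a d + b c`. -/
def form : LinearMap.BilinForm F (Sp F m) :=
  LinearMap.mk₂ F (fun x y => x.1 ⬝ᵥ y.2 + x.2 ⬝ᵥ y.1)
    (fun x x' y => by simp [add_dotProduct]; ring)
    (fun c x y => by simp [smul_dotProduct, mul_add])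
    (fun x y y' => by simp [dotProduct_add]; ring)
    (fun c x y => by simp [dotProduct_smul, mul_add])

theorem form_apply (x y : Sp F m) : form F m x y = x.1 ⬝ᵥ y.2 + x.2 ⬝ᵥ y.1 := rfl

theorem form_symm : (form F m).IsSymm := by
  refine ⟨fun x y => ?_⟩
  simp only [form_apply]
  rw [dotProduct_comm x.1, dotProduct_comm x.2, add_comm]

theorem form_nondeg : (form F m).Nondegenerate := by
  have h : ∀ x : Sp F m, (∀ y, form F m x y = 0) → x = 0 := by
    intro x hx
    have h1 : x.1 = 0 := by
      funext i
      have := hx (0, Pi.single i 1)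
      simpa [form_apply] using this
    have h2 : x.2 = 0 := by
      funext i
      have := hx (Pi.single i 1, 0)
      simpa [form_apply] using this
    exact Prod.ext h1 h2
  refine ⟨fun x hx => h x hx, fun y hy => h y (fun x => ?_)⟩
  rw [(form_symm F m).eq]
  exact hy x

theorem finrank_sp : finrank F (Sp F m) = 2 * m := by
  rw [Module.finrank_prod, Module.finrank_fintype_fun_eq_card, Fintype.card_fin]
  ring

open Classical in
/-- At least one vector in `q` is isotropic. -/
theorem card_iso_ge [Fintype F] :
    Fintype.card F ^ (2 * m) ≤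
      Fintype.card F * (univ.filter (fun v : Sp F m => form F m v v = 0)).card := by
  have h1 : (univ.filter (fun v : Sp F m => v.1 ⬝ᵥ v.2 = 0)).card =
      ∑ a : Fin m → F, (univ.filter (fun b : Fin m → F => a ⬝ᵥ b = 0)).card := by
    simp only [card_filter]
    rw [Fintype.sum_prod_type]
  have h2 : ∀ a : Fin m → F, Fintype.card F ^ m ≤
      Fintype.card F * (univ.filter (fun b : Fin m → F => a ⬝ᵥ b = 0)).card := by
    intro a
    let φ : (Fin m → F) →ₗ[F] F := dotProductBilin F F a
    have h3 : (univ.filter (fun b : Fin m → F => a ⬝ᵥ b = 0)).card =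
        Fintype.card F ^ finrank F (LinearMap.ker φ) := by
      have := card_sub (F := F) (LinearMap.ker φ)
      rw [← this]
      congr 1
    rw [h3, ← pow_succ']
    apply Nat.pow_le_pow_right Fintype.card_pos
    have h4 := LinearMap.finrank_range_add_finrank_ker φ
    have h5 : finrank F (LinearMap.range φ) ≤ 1 := by
      have := Submodule.finrank_le (LinearMap.range φ)
      rwa [Module.finrank_self] at this
    rw [Module.finrank_fintype_fun_eq_card, Fintype.card_fin] at h4
    omega
  have h3 : (univ.filter (fun v : Sp F m => v.1 ⬝ᵥ v.2 = 0)).card ≤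
      (univ.filter (fun v : Sp F m => form F m v v = 0)).card := by
    apply card_le_card
    intro v hv
    simp only [mem_filter, mem_univ, true_and] at hv ⊢
    rw [form_apply, dotProduct_comm v.2, hv, add_zero]
  calc Fintype.card F ^ (2 * m) = ∑ a : Fin m → F, Fintype.card F ^ m := by
        rw [sum_const, card_univ, Fintype.card_fun, Fintype.card_fin, smul_eq_mul, two_mul, pow_add]
    _ ≤ ∑ a : Fin m → F, Fintype.card F *
          (univ.filter (fun b : Fin m → F => a ⬝ᵥ b = 0)).card := Finset.sum_le_sum fun a _ => h2 a
    _ = Fintype.card F * (univ.filter (fun v : Sp F m => v.1 ⬝ᵥ v.2 = 0)).card := by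
        rw [h1, Finset.mul_sum]
    _ ≤ _ := Nat.mul_le_mul_left _ h3

theorem form_two (v : Sp (ZMod 2) m) : form (ZMod 2) m v v = 0 := by
  rw [form_apply, dotProduct_comm v.2]
  exact CharTwo.add_self_eq_zero _

end space

/-- The union bound. -/
theorem exists_good {α : Type} [Fintype α] [Nonempty α] {n k : ℕ} (bad : Finset (Fin k → α))
    (h : n.choose k * bad.card < Fintype.card α ^ k) :
    ∃ x : Fin n → α, ∀ (s : Finset (Fin n)) (hs : s.card = k),
      (fun i => x (s.orderEmbOfFin hs i)) ∉ bad := by
  classical
  by_contra hcon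
  push Not at hcon
  let A : Finset (Fin n) → Finset (Fin n → α) := fun s =>
    univ.filter (fun x => ∃ hs : s.card = k, (fun i => x (s.orderEmbOfFin hs i)) ∈ bad)
  have hA : ∀ s ∈ powersetCard k (univ : Finset (Fin n)),
      (A s).card * Fintype.card α ^ k ≤ bad.card * Fintype.card α ^ n := by
    intro s hs
    rw [mem_powersetCard] at hs
    obtain ⟨-, hs⟩ := hs
    have h1 : (A s).card ≤ bad.card * Fintype.card ({i // i ∉ s} → α) := by
      have h2 : (A s).card ≤ (bad ×ˢ (univ : Finset ({i // i ∉ s} → α))).card := by
        apply card_le_card_of_injOn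
          (fun x => ((fun i => x (s.orderEmbOfFin hs i)), (fun i : {i // i ∉ s} => x i.1)))
        · intro x hx
          simp only [A, coe_filter, mem_univ, true_and, Set.mem_ofPred_eq] at hx
          obtain ⟨_, hx⟩ := hx
          simpa using hx
        · intro x _ y _ hxy
          simp only [Prod.mk.injEq] at hxy
          funext i
          by_cases hi : i ∈ s
          · have h3 : i ∈ Set.range (s.orderEmbOfFin hs) := by
              rw [Finset.range_orderEmbOfFin]
              exact hi
            obtain ⟨j, rfl⟩ := h3
            exact congrFun hxy.1 j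
          · exact congrFun hxy.2 ⟨i, hi⟩
      rw [card_product, card_univ] at h2
      exact h2
    have hkn : k ≤ n := by
      rw [← hs]
      exact (card_le_univ s).trans (by simp)
    have h3 : Fintype.card {i // i ∉ s} = n - k := by
      rw [Fintype.card_subtype_compl, Fintype.card_fin, Fintype.card_coe, hs]
    rw [Fintype.card_fun, h3] at h1
    calc (A s).card * Fintype.card α ^ k ≤
        bad.card * Fintype.card α ^ (n - k) * Fintype.card α ^ k := Nat.mul_le_mul_right _ h1
      _ = bad.card * Fintype.card α ^ n := by
        rw [mul_assoc, ← pow_add]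
        congr 2
        omega
  have hcov : (univ : Finset (Fin n → α)) ⊆ (powersetCard k (univ : Finset (Fin n))).biUnion A := by
    intro x _
    obtain ⟨s, hs, hx⟩ := hcon x
    rw [mem_biUnion]
    refine ⟨s, mem_powersetCard.2 ⟨subset_univ _, hs⟩, ?_⟩
    simp only [A, mem_filter, mem_univ, true_and]
    exact ⟨hs, hx⟩
  have hcard : Fintype.card α ^ n ≤ ∑ s ∈ powersetCard k (univ : Finset (Fin n)), (A s).card := by
    have := (card_le_card hcov).trans card_biUnion_le
    rwa [card_univ, Fintype.card_fun, Fintype.card_fin] at this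
  have hfin : Fintype.card α ^ n * Fintype.card α ^ k ≤
      n.choose k * bad.card * Fintype.card α ^ n := by
    calc Fintype.card α ^ n * Fintype.card α ^ k ≤
        (∑ s ∈ powersetCard k (univ : Finset (Fin n)), (A s).card) * Fintype.card α ^ k :=
          Nat.mul_le_mul_right _ hcard
      _ = ∑ s ∈ powersetCard k (univ : Finset (Fin n)), (A s).card * Fintype.card α ^ k := by
          rw [Finset.sum_mul]
      _ ≤ (powersetCard k (univ : Finset (Fin n))).card • (bad.card * Fintype.card α ^ n) :=
          Finset.sum_le_card_nsmul _ _ _ hA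
      _ = _ := by
        rw [card_powersetCard, card_univ, Fintype.card_fin, smul_eq_mul]
        ring
  have hpos : 0 < Fintype.card α ^ n := pow_pos Fintype.card_pos n
  have : Fintype.card α ^ k ≤ n.choose k * bad.card := by
    rw [mul_comm] at hfin
    exact Nat.le_of_mul_le_mul_right hfin hpos
  omega

end Pool.Agent.H370RR
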