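import Mathlib

set_option autoImplicit false

/-!
# Large homogeneous sets for symmetric matrices of low rank over a finite field
-/

namespace Pool.Agent.H370RR

open Module

section

variable {F : Type*} [Field F] [Fintype F]

/-- Chevalley–Warning for a quadratic form in three variables. -/
theorem exists_zero {E : Type*} [AddCommGroup E] [Module F E] (B : LinearMap.BilinForm F E)
    (a : Fin 3 → E) : ∃ x : Fin 3 → F, x ≠ 0 ∧ B (∑ i, x i • a i) (∑ i, x i • a i) = 0 := by
  classical
  let f : MvPolynomial (Fin 3) F := ∑ i, ∑ j, MvPolynomial.C (B (a i) (a j)) *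
    (MvPolynomial.X i * MvPolynomial.X j)
  have hev : ∀ x : Fin 3 → F, MvPolynomial.eval x f = B (∑ i, x i • a i) (∑ i, x i • a i) := by
    intro x
    have h1 : B (∑ i, x i • a i) (∑ j, x j • a j) = ∑ i, ∑ j, B (a i) (a j) * (x i * x j) := by
      rw [map_sum B, LinearMap.sum_apply]
      refine Finset.sum_congr rfl fun i _ => ?_
      rw [map_sum]
      refine Finset.sum_congr rfl fun j _ => ?_
      rw [LinearMap.map_smul, LinearMap.map_smul, LinearMap.smul_apply, smul_eq_mul, smul_eq_mul]
      ring
    rw [h1]
    simp only [f, map_sum, map_mul, MvPolynomial.eval_C, MvPolynomial.eval_X]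
  have hdeg : f.totalDegree < Fintype.card (Fin 3) := by
    rw [Fintype.card_fin]
    refine lt_of_le_of_lt (b := 2) ?_ (by norm_num)
    refine MvPolynomial.totalDegree_finsetSum_le fun i _ => ?_
    refine MvPolynomial.totalDegree_finsetSum_le fun j _ => ?_
    refine (MvPolynomial.totalDegree_mul _ _).trans ?_
    rw [MvPolynomial.totalDegree_C, zero_add]
    refine (MvPolynomial.totalDegree_mul _ _).trans ?_
    rw [MvPolynomial.totalDegree_X, MvPolynomial.totalDegree_X]
  obtain ⟨p, hp⟩ := CharP.exists F
  have hpr : p.Prime := by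
    rcases CharP.char_is_prime_or_zero F p with h | h
    · exact h
    · exfalso
      subst h
      have := CharP.char_ne_zero_of_finite F 0
      exact this rfl
  have hdvd := char_dvd_card_solutions (K := F) p hdeg
  have h0 : MvPolynomial.eval (0 : Fin 3 → F) f = 0 := by
    rw [hev]
    simp
  by_contra hcon
  push Not at hcon
  have hone : Fintype.card { x : Fin 3 → F // MvPolynomial.eval x f = 0 } = 1 := by
    rw [Fintype.card_eq_one_iff]
    refine ⟨⟨0, h0⟩, ?_⟩
    rintro ⟨x, hx⟩
    apply Subtype.ext
    by_contra hne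
    exact hcon x hne (by rw [← hev]; exact hx)
  rw [hone] at hdvd
  exact hpr.one_lt.ne' (Nat.dvd_one.1 hdvd)

/-- A symmetric bilinear form over a finite field whose radical has codimension `ρ` has a totally
isotropic subspace of codimension at most `ρ / 2 + 1`. -/
theorem exists_isotropic {E : Type*} [AddCommGroup E] [Module F E] [FiniteDimensional F E]
    (B : LinearMap.BilinForm F E) (hB : B.IsSymm) :
    ∃ L : Submodule F E, (∀ x ∈ L, ∀ y ∈ L, B x y = 0) ∧
      finrank F E + finrank F (B.orthogonal ⊤ : Submodule F E) ≤ 2 * finrank F L + 2 := by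
  classical
  -- a totally isotropic subspace of maximal dimension
  let P : ℕ → Prop := fun d => ∃ L : Submodule F E, (∀ x ∈ L, ∀ y ∈ L, B x y = 0) ∧ finrank F L = d
  have hP0 : P 0 := ⟨⊥, by simp, by simp⟩
  have hbd : ∀ d, P d → d ≤ finrank F E := by
    rintro d ⟨L, _, rfl⟩
    exact Submodule.finrank_le L
  obtain ⟨L, hL, hmax⟩ : ∃ L : Submodule F E, (∀ x ∈ L, ∀ y ∈ L, B x y = 0) ∧
      ∀ L' : Submodule F E, (∀ x ∈ L', ∀ y ∈ L', B x y = 0) → finrank F L' ≤ finrank F L := by
    have h1 := Nat.findGreatest_spec (P := P) (Nat.zero_le (finrank F E)) hP0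
    obtain ⟨L, hL, hd⟩ := h1
    refine ⟨L, hL, fun L' hL' => ?_⟩
    rw [hd]
    exact Nat.le_findGreatest (hbd _ ⟨L', hL', rfl⟩) ⟨L', hL', rfl⟩
  refine ⟨L, hL, ?_⟩
  have hrefl : B.IsRefl := hB.isRefl
  -- vectors that can be added
  have hadd : ∀ w : E, (∀ x ∈ L, B x w = 0) → B w w = 0 → w ∈ L := by
    intro w hw hww
    by_contra hwL
    have hiso : ∀ x ∈ L ⊔ Submodule.span F {w}, ∀ y ∈ L ⊔ Submodule.span F {w}, B x y = 0 := by
      intro x hx y hy
      obtain ⟨x1, hx1, x2, hx2, rfl⟩ := Submodule.mem_sup.1 hx
      obtain ⟨y1, hy1, y2, hy2, rfl⟩ := Submodule.mem_sup.1 hy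
      obtain ⟨s, rfl⟩ := Submodule.mem_span_singleton.1 hx2
      obtain ⟨t, rfl⟩ := Submodule.mem_span_singleton.1 hy2
      have e1 := hL x1 hx1 y1 hy1
      have e2 := hw x1 hx1
      have e3 : B w y1 = 0 := by rw [hB.eq w y1]; exact hw y1 hy1
      simp [map_add, LinearMap.add_apply, e1, e2, e3, hww]
    have hlt : L < L ⊔ Submodule.span F {w} := by
      refine lt_of_le_of_ne le_sup_left ?_
      intro h
      apply hwL
      rw [h]
      exact Submodule.mem_sup_right (Submodule.mem_span_singleton_self w)
    have h1 := Submodule.finrank_lt_finrank_of_lt hlt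
    have h2 := hmax _ hiso
    omega
  -- the radical is contained in `L`
  have hrad : (B.orthogonal ⊤ : Submodule F E) ≤ L := by
    intro w hw
    rw [LinearMap.BilinForm.mem_orthogonal_iff] at hw
    exact hadd w (fun x _ => hw x trivial) (hw w trivial)
  have hLP : L ≤ B.orthogonal L := by
    intro x hx
    rw [LinearMap.BilinForm.mem_orthogonal_iff]
    intro y hy
    exact hL y hy x hx
  -- the anisotropic part has dimension at most two
  have hani : finrank F (B.orthogonal L : Submodule F E) ≤ finrank F L + 2 := by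
    by_contra hcon
    push Not at hcon
    -- three vectors of `L^⊥` independent modulo `L`
    let L' : Submodule F (B.orthogonal L : Submodule F E) := L.comap (B.orthogonal L).subtype
    have hL' : finrank F L' = finrank F L :=
      (Submodule.comapSubtypeEquivOfLe hLP).finrank_eq
    have hq := Submodule.finrank_quotient_add_finrank L'
    have hQ : 3 ≤ finrank F ((B.orthogonal L : Submodule F E) ⧸ L') := by omega
    let b := Module.finBasis F ((B.orthogonal L : Submodule F E) ⧸ L')
    have hli : LinearIndependent F (fun i : Fin 3 => b (Fin.castLE hQ i)) :=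
      b.linearIndependent.comp _ (Fin.castLE_injective hQ)
    choose a ha using fun i : Fin 3 => Submodule.Quotient.mk_surjective L' (b (Fin.castLE hQ i))
    obtain ⟨x, hx0, hx⟩ := exists_zero B (fun i => (a i : E))
    apply hx0
    have hw : (∑ i, x i • (a i : E)) ∈ L := by
      refine hadd _ ?_ hx
      intro y hy
      have h1 : (∑ i, x i • (a i : E)) ∈ B.orthogonal L :=
        Submodule.sum_mem _ fun i _ => Submodule.smul_mem _ _ (a i).2
      rw [LinearMap.BilinForm.mem_orthogonal_iff] at h1
      exact h1 y hy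
    have hw' : (∑ i, x i • a i) ∈ L' := by
      show (B.orthogonal L).subtype (∑ i, x i • a i) ∈ L
      rw [map_sum]
      exact hw
    have hsum : ∑ i, x i • b (Fin.castLE hQ i) = 0 := by
      have h2 : (Submodule.Quotient.mk (∑ i, x i • a i) :
          (B.orthogonal L : Submodule F E) ⧸ L') = 0 := (Submodule.Quotient.mk_eq_zero L').2 hw'
      rw [← h2, ← Submodule.mkQ_apply, map_sum]
      refine Finset.sum_congr rfl fun i _ => ?_
      rw [LinearMap.map_smul, Submodule.mkQ_apply, ha]
    funext i
    exact Fintype.linearIndependent_iff.1 hli x hsum i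
  have hdim := LinearMap.BilinForm.finrank_add_finrank_orthogonal hrefl L
  have hinf : L ⊓ B.orthogonal ⊤ = B.orthogonal ⊤ := inf_eq_right.2 hrad
  rw [hinf] at hdim
  omega

/-- The vertices of a symmetric matrix of rank `ρ` over a field with `q` elements can be split into
at most `q ^ (ρ / 2 + 2)` classes such that the diagonal blocks of the matrix are constant. -/
theorem partition {ι : Type*} [Fintype ι] [DecidableEq ι] (M : Matrix ι ι F) (hM : M.IsSymm) :
    ∃ c : ι → Fin (Fintype.card F ^ ((M.rank + 4) / 2)), ∀ i j i' j' : ι, c i = c j → c i' = c j' →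
      c i = c i' → M i j = M i' j' := by
  classical
  let B : LinearMap.BilinForm F (ι → F) := M.toBilin'
  have hB : B.IsSymm := Matrix.isSymm_toBilin'_iff_isSymm.2 hM
  obtain ⟨L, hL, hdim⟩ := exists_isotropic B hB
  have hrad : (B.orthogonal ⊤ : Submodule F (ι → F)) = LinearMap.ker M.mulVecLin := by
    ext w
    rw [LinearMap.BilinForm.mem_orthogonal_iff, LinearMap.mem_ker, Matrix.mulVecLin_apply]
    constructor
    · intro h
      funext i
      have h1 : B (Pi.single i 1) w = 0 := h _ trivial
      rw [Matrix.toBilin'_apply', single_one_dotProduct] at h1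
      exact h1
    · intro h x _
      show B x w = 0
      rw [Matrix.toBilin'_apply', h, dotProduct_zero]
  have hrk : M.rank + finrank F (B.orthogonal ⊤ : Submodule F (ι → F)) = Fintype.card ι := by
    rw [hrad]
    have := LinearMap.finrank_range_add_finrank_ker M.mulVecLin
    rw [Module.finrank_fintype_fun_eq_card] at this
    exact this
  have hE : finrank F (ι → F) = Fintype.card ι := Module.finrank_fintype_fun_eq_card F
  have hq : finrank F ((ι → F) ⧸ L) ≤ (M.rank + 2) / 2 := by
    have := Submodule.finrank_quotient_add_finrank L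
    omega
  -- the classes
  let e : ι → (ι → F) := fun i => Pi.single i 1
  have he : ∀ i j, B (e i) (e j) = M i j := fun i j => Matrix.toBilin'_single M i j
  let key : ι → (ι → F) ⧸ L := fun i => Submodule.Quotient.mk (e i)
  let rep : ((ι → F) ⧸ L) → Option ι := fun k =>
    if h : ∃ r : ι, key r = k then some h.choose else none
  have hrep2 : ∀ i : ι, ∃ r : ι, rep (key i) = some r ∧ key r = key i := by
    intro i
    have h : ∃ r : ι, key r = key i := ⟨i, rfl⟩
    refine ⟨h.choose, ?_, h.choose_spec⟩
    simp only [rep, dif_pos h]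
  let val : ι → F := fun i => match rep (key i) with
    | some r => M r i
    | none => 0
  let cl : ι → ((ι → F) ⧸ L) × F := fun i => (key i, val i)
  have hcard : Nat.card (((ι → F) ⧸ L) × F) ≤ Fintype.card F ^ ((M.rank + 4) / 2) := by
    rw [Nat.card_prod, Module.natCard_eq_pow_finrank (K := F) (V := (ι → F) ⧸ L),
      Nat.card_eq_fintype_card]
    have h1 : (M.rank + 4) / 2 = (M.rank + 2) / 2 + 1 := by omega
    rw [h1, pow_succ]
    exact Nat.mul_le_mul_right _ (Nat.pow_le_pow_right Fintype.card_pos hq)
  have hemb : ∃ f : (((ι → F) ⧸ L) × F) → Fin (Fintype.card F ^ ((M.rank + 4) / 2)),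
      Function.Injective f := by
    have h2 : Nonempty ((((ι → F) ⧸ L) × F) ↪ Fin (Fintype.card F ^ ((M.rank + 4) / 2))) := by
      rw [Function.Embedding.nonempty_iff_card_le, Fintype.card_fin, ← Nat.card_eq_fintype_card]
      exact hcard
    obtain ⟨f⟩ := h2
    exact ⟨f, f.injective⟩
  obtain ⟨f, hf⟩ := hemb
  -- the value of the form on a class
  have hval : ∀ i j r : ι, key r = key i → key r = key j →
      M i j = M r i + M r j - M r r := by
    intro i j r hi hj
    have hi' : e i - e r ∈ L := by
      rw [← Submodule.Quotient.mk_eq_zero L, Submodule.Quotient.mk_sub]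
      exact sub_eq_zero.2 hi.symm
    have hj' : e j - e r ∈ L := by
      rw [← Submodule.Quotient.mk_eq_zero L, Submodule.Quotient.mk_sub]
      exact sub_eq_zero.2 hj.symm
    have h1 := hL _ hi' _ hj'
    simp only [map_sub, LinearMap.sub_apply, he] at h1
    have h2 : M i r = M r i := hM.apply r i
    rw [h2] at h1
    linear_combination h1
  refine ⟨fun i => f (cl i), ?_⟩
  intro i j i' j' h1 h2 h3
  have h1' := hf h1
  have h2' := hf h2
  have h3' := hf h3
  simp only [cl, Prod.mk.injEq] at h1' h2' h3'
  obtain ⟨r, hr, hkr⟩ := hrep2 i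
  have hv : ∀ a : ι, key i = key a → val a = M r a := by
    intro a ha
    simp only [val]
    rw [← ha, hr]
  have k1 : key i = key j := h1'.1
  have k3 : key i = key i' := h3'.1
  have k2 : key i = key j' := k3.trans h2'.1
  rw [hval i j r hkr (hkr.trans k1), hval i' j' r (hkr.trans k3) (hkr.trans k2),
    ← hv i rfl, ← hv j k1, ← hv i' k3, ← hv j' k2]
  linear_combination 2 * h3'.2 - h1'.2 + h2'.2

end

end Pool.Agent.H370RR
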